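import Pool.Agent.H.MP_03aa11_co.K

namespace Pool.Agent.Results.MP_03aa11_co.Integral

open Pool.Agent.H.MP_03aa11_co

/-- At a tame `SL_k`-frieze with positive integer values, every cluster variable of the
Grassmannian cluster algebra is defined and takes an integer value. -/
theorem result (k w : ℕ) (hk : 2 ≤ k) (_hw : 1 ≤ w) (M : ℤ → ℤ → ℚ) (hM : IsFrieze k w M) :
    (∃ A : Matrix (Fin k) (Fin (w + k + 1)) ℚ, Corr k w M A) ∧
    ∀ A : Matrix (Fin k) (Fin (w + k + 1)) ℚ, Corr k w M A →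
      ∀ z : Fd k w, IsClusterVar k w z →
        ∃ m : ℤ, HasValue z A (m : ℚ) ∧ ∀ q : ℚ, HasValue z A q → q = (m : ℚ) := by
  refine ⟨⟨_, hM.corr (by omega)⟩, fun A hA z hz => ?_⟩
  obtain ⟨m, hm⟩ := integral (by omega) hM hA hz
  exact ⟨m, hm, fun q hq => value_unique hq hm⟩

end Pool.Agent.Results.MP_03aa11_co.Integral
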